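import Pool.Agent.X268.SD.Stm
import Pool.Agent.W539.DI.Cor

set_option linter.unusedSectionVars false

open Module CategoryTheory

namespace Pool.Agent.X268.SD

open Pool.Agent.W539.DI Pool.Agent.X268.HS

variable {A : Type} [Ring A] [Algebra ℚ A] [StarRing A] {m : ℕ}

theorem DegIso.equiv {V W : LData A} {i : ℤ} (h : DegIso V W i) :
    Nonempty (V.deg i ≃ₗ[A] W.deg i) := by
  obtain ⟨e⟩ := h
  exact ⟨e.toLinearEquiv⟩

theorem degIso_of {V W : LData A} {i : ℤ} (h : Nonempty (V.deg i ≃ₗ[A] W.deg i)) :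
    DegIso V W i := by
  obtain ⟨e⟩ := h
  exact ⟨e.toModuleIso⟩

theorem UpTo.equiv {V W V' W' : LData A} {i : ℤ} (h : UpTo V W V' W' i) :
    ∃ a b : ℕ, Nonempty ((V.deg i × (Fin a → V'.deg 0)) ≃ₗ[A]
      (W.deg i × (Fin b → W'.deg 0))) := by
  obtain ⟨a, b, ⟨e⟩⟩ := h
  exact ⟨a, b, ⟨e.toLinearEquiv⟩⟩

namespace Count

variable (η : Count A)

theorem of_equiv (a : ℤ) {M N : Type} [AddCommGroup M] [Module A M] [AddCommGroup N] [Module A N]
    (e : M ≃ₗ[A] N) : η.num a (ModuleCat.of A M) = η.num a (ModuleCat.of A N) :=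
  η.iso a _ _ ⟨e.toModuleIso⟩

theorem of_prod (a : ℤ) (M N : Type) [AddCommGroup M] [Module A M] [AddCommGroup N]
    [Module A N] : η.num a (ModuleCat.of A (M × N)) =
      η.num a (ModuleCat.of A M) + η.num a (ModuleCat.of A N) :=
  η.prod a (ModuleCat.of A M) (ModuleCat.of A N)

theorem of_sub (a : ℤ) (M : Type) [AddCommGroup M] [Module A M] [Subsingleton M] :
    η.num a (ModuleCat.of A M) = 0 := by
  let e : (M × M) ≃ₗ[A] M :=
    { toFun := fun x => x.1
      map_add' := fun _ _ => rfl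
      map_smul' := fun _ _ => rfl
      invFun := fun x => (x, x)
      left_inv := fun x => Subsingleton.elim _ _
      right_inv := fun x => rfl }
  have h1 := η.of_equiv a e
  rw [of_prod] at h1
  omega

theorem of_pow (a : ℤ) (M : Type) [AddCommGroup M] [Module A M] (r : ℕ) :
    η.num a (ModuleCat.of A (Fin r → M)) = r * η.num a (ModuleCat.of A M) := by
  induction r with
  | zero => rw [η.of_sub a (Fin 0 → M), zero_mul]
  | succ r ih =>
    rw [← η.of_equiv a (Fin.consLinearEquiv A (fun _ : Fin (r + 1) => M)), of_prod, ih]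
    ring

end Count

section

variable {E F : LefMod A (m + 1)} {O P : LefMod A m} {η : Count A} {K L : KRing (m + 1)}

theorem num_one (hK : Gives η E O K) : η.num 0 (degMod E.toLData 0) = 1 := by
  have h := (hK 0 0).1
  rw [add_zero, sub_zero] at h
  rw [← h]
  exact K.h00

theorem deg_of_graded {r : ℕ} {V W : LefMod A r} (h : GrIso V W) (i : ℤ) :
    Nonempty (V.deg i ≃ₗ[A] W.deg i) := by
  obtain ⟨Θ, hΘ⟩ := h
  refine ⟨LinearEquiv.ofSubmodules Θ (V.deg i) (W.deg i) ?_⟩
  apply le_antisymm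
  · rintro _ ⟨x, hx, rfl⟩
    exact (hΘ i x).mp hx
  · intro y hy
    refine ⟨Θ.symm y, ?_, Θ.apply_symm_apply y⟩
    refine (hΘ i _).mpr ?_
    have : LData.map Θ (Θ.symm y) = y := Θ.apply_symm_apply y
    rw [this]
    exact hy

/-- Isomorphic graded modules have the same Hodge numbers. -/
theorem hodge_of_graded (hK : Gives η E O K) (hL : Gives η F P L) (h : GrIso E F)
    (h' : GrIso O P) (p q : ℤ) : K.h p q = L.h p q := by
  rcases Int.even_or_odd' (p + q) with ⟨i, hi | hi⟩
  · have h1 := (hK i (p - i)).1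
    have h2 := (hL i (p - i)).1
    rw [show i + (p - i) = p by ring, show i - (p - i) = q by omega] at h1 h2
    rw [h1, h2]
    obtain ⟨e⟩ := deg_of_graded h i
    exact η.of_equiv _ e
  · have h1 := (hK i (p - i)).2
    have h2 := (hL i (p - i)).2
    rw [show i + (p - i) = p by ring, show i + 1 - (p - i) = q by omega] at h1 h2
    rw [h1, h2]
    obtain ⟨e⟩ := deg_of_graded h' i
    exact η.of_equiv _ e

theorem chern_of_hodge (h : ∀ p q : ℤ, K.h p q = L.h p q) {C D : ℤ}
    (hC : LibgoberWood K C) (hD : LibgoberWood L D) : C = D := by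
  unfold LibgoberWood moment euler at hC hD
  simp only [h] at hC
  linarith

end

end Pool.Agent.X268.SD
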