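import Pool.Agent.X268.HS.Mot
import Pool.Agent.W539.DI.Defs

set_option linter.unusedSectionVars false

open Module CategoryTheory Finset

namespace Pool.Agent.X268.SD

open Pool.Agent.W539.DI Pool.Agent.X268.HS

/-- The submodule `deg i`, as an object of the category of the modules over `A`. -/
def degMod {A : Type} [Ring A] [Algebra ℚ A] (V : LData A) (i : ℤ) : ModuleCat.{0} A :=
  ModuleCat.of A (V.deg i)

/-- Additive numbers `num a M`, `a ∈ ℤ`, attached to the modules `M` over `A`: in the application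
`M` is a Hodge structure of weight `0` or `1`, and `num a M` is the dimension of the piece of type
`(a, -a)` or `(a, 1 - a)`. -/
structure Count (A : Type) [Ring A] where
  num : ℤ → ModuleCat.{0} A → ℕ
  iso : ∀ (a : ℤ) (M N : ModuleCat.{0} A), Nonempty (M ≅ N) → num a M = num a N
  prod : ∀ (a : ℤ) (M N : ModuleCat.{0} A), num a (ModuleCat.of A (M × N)) = num a M + num a N

/-- The direct sum of two modules. -/
def plus {A : Type} [Ring A] (M N : ModuleCat.{0} A) : ModuleCat.{0} A := ModuleCat.of A (M × N)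

/-- The direct sum of `a` copies of a module. -/
def copies {A : Type} [Ring A] (a : ℕ) (M : ModuleCat.{0} A) : ModuleCat.{0} A :=
  ModuleCat.of A (Fin a → M)

/-- The modules `V.deg i` and `W.deg i` are isomorphic. -/
def DegIso {A : Type} [Ring A] [Algebra ℚ A] (V W : LData A) (i : ℤ) : Prop :=
  Nonempty (degMod V i ≅ degMod W i)

/-- `V.deg i` and `W.deg i` are isomorphic up to direct sums of copies of `V'.deg 0` and
`W'.deg 0`. -/
def UpTo {A : Type} [Ring A] [Algebra ℚ A] (V W V' W' : LData A) (i : ℤ) : Prop :=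
  ∃ a b : ℕ, Nonempty (plus (degMod V i) (copies a (degMod V' 0)) ≅
    plus (degMod W i) (copies b (degMod W' 0)))

variable {A : Type} [Ring A] [Algebra ℚ A] [StarRing A] {m : ℕ}

/-- The Hodge numbers of `K` are the numbers of `E.deg i = H^{2 i}(i)` and of
`O.deg i = H^{2 i + 1}(i)`. -/
def Gives (η : Count A) (E : LefMod A (m + 1)) (O : LefMod A m) (K : KRing (m + 1)) : Prop :=
  ∀ i a : ℤ, K.h (i + a) (i - a) = η.num a (degMod E.toLData i) ∧
    K.h (i + a) (i + 1 - a) = η.num a (degMod O.toLData i)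

variable {n : ℕ}

/-- The Euler characteristic. -/
noncomputable def euler (X : KRing n) : ℤ :=
  ∑ p ∈ range (n + 1), ∑ q ∈ range (n + 1), (-1) ^ (p + q) * (X.h p q : ℤ)

/-- The sum `∑ (-1)^{p+q} (2 p - n)^2 h^{p,q}`. -/
noncomputable def moment (X : KRing n) : ℤ :=
  ∑ p ∈ range (n + 1), ∑ q ∈ range (n + 1), (-1) ^ (p + q) * (2 * (p : ℤ) - n) ^ 2 * (X.h p q : ℤ)

/-- The formula `∑ (-1)^{p+q} (p - n/2)^2 h^{p,q} = (n / 12) c_n + (1 / 6) c_1 c_{n-1}` of Libgober
and Wood, where `c_n` is the Euler characteristic and `C` is the Chern number `c_1 c_{n-1}`. -/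
def LibgoberWood (X : KRing n) (C : ℤ) : Prop := 3 * moment X = n * euler X + 2 * C

end Pool.Agent.X268.SD
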